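import Mathlib

/-!
# MP_1be6c9_co (helper49): balancing unit vectors on at most `d + 2` lines

Weigh the signings `η` by `(∑ x i * η i) ^ 2`, where `x` is a linear relation of the vectors.
-/

set_option autoImplicit false

namespace Pool.Agent.Results.MP_1be6c9_co.FewLines

open Finset

variable {E : Type} [NormedAddCommGroup E] [InnerProductSpace ℝ E]

/-- weighted averaging -/
theorem key {ι : Type} [DecidableEq ι] (x : ι → ℝ) (v : ι → E) (R : ℝ) (s : Finset ι) :
    ∀ (a : ℝ) (w : E), ∃ η : ι → ℝ, (∀ i, η i = 1 ∨ η i = -1) ∧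
      (a + ∑ i ∈ s, x i * η i) ^ 2 * (‖w + ∑ i ∈ s, η i • v i‖ ^ 2 - R) ≤
        (a ^ 2 + ∑ i ∈ s, x i ^ 2) * (‖w‖ ^ 2 + ∑ i ∈ s, ‖v i‖ ^ 2 - R)
          + 4 * a * inner ℝ w (∑ i ∈ s, x i • v i)
          + 2 * (‖∑ i ∈ s, x i • v i‖ ^ 2 - ∑ i ∈ s, x i ^ 2 * ‖v i‖ ^ 2) := by
  induction s using Finset.induction_on with
  | empty =>
    intro a w
    refine ⟨fun _ => 1, fun _ => Or.inl rfl, ?_⟩
    simp
  | insert i s hi ih =>
    intro a w
    have hne : ∀ j ∈ s, j ≠ i := fun j hj h => hi (h ▸ hj)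
    set A := ∑ i ∈ s, x i ^ 2 with hA
    set B := ∑ i ∈ s, ‖v i‖ ^ 2 with hB
    set p := ∑ i ∈ s, x i • v i with hp
    set C := ∑ i ∈ s, x i ^ 2 * ‖v i‖ ^ 2 with hC
    -- the two values
    have hsum : ((a + x i) ^ 2 + A) * (‖w + v i‖ ^ 2 + B - R)
          + 4 * (a + x i) * inner ℝ (w + v i) p + 2 * (‖p‖ ^ 2 - C)
        + (((a - x i) ^ 2 + A) * (‖w - v i‖ ^ 2 + B - R)
          + 4 * (a - x i) * inner ℝ (w - v i) p + 2 * (‖p‖ ^ 2 - C))
        = 2 * ((a ^ 2 + (x i ^ 2 + A)) * (‖w‖ ^ 2 + (‖v i‖ ^ 2 + B) - R)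
          + 4 * a * inner ℝ w (x i • v i + p)
          + 2 * (‖x i • v i + p‖ ^ 2 - (x i ^ 2 * ‖v i‖ ^ 2 + C))) := by
      have h1 : ‖w + v i‖ ^ 2 = ‖w‖ ^ 2 + 2 * inner ℝ w (v i) + ‖v i‖ ^ 2 := norm_add_sq_real _ _
      have h2 : ‖w - v i‖ ^ 2 = ‖w‖ ^ 2 - 2 * inner ℝ w (v i) + ‖v i‖ ^ 2 := norm_sub_sq_real _ _
      have h3 : ‖x i • v i + p‖ ^ 2 = x i ^ 2 * ‖v i‖ ^ 2 + 2 * (x i * inner ℝ (v i) p) + ‖p‖ ^ 2 := by
        rw [norm_add_sq_real, norm_smul, inner_smul_left, Real.norm_eq_abs, mul_pow, sq_abs]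
        simp
      have h4 : inner ℝ w (x i • v i + p) = x i * inner ℝ w (v i) + inner ℝ w p := by
        rw [inner_add_right, inner_smul_right]
      rw [h1, h2, h3, h4, inner_add_left, inner_sub_left]
      ring
    have e1 : ∀ f : ι → ℝ, ∑ j ∈ insert i s, f j = f i + ∑ j ∈ s, f j := fun f =>
      Finset.sum_insert hi
    have e2 : ∑ j ∈ insert i s, x j • v j = x i • v i + p := Finset.sum_insert hi
    rw [e1, e1, e1, e2]
    by_cases hc : ((a + x i) ^ 2 + A) * (‖w + v i‖ ^ 2 + B - R)
          + 4 * (a + x i) * inner ℝ (w + v i) p + 2 * (‖p‖ ^ 2 - C) ≤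
        (a ^ 2 + (x i ^ 2 + A)) * (‖w‖ ^ 2 + (‖v i‖ ^ 2 + B) - R)
          + 4 * a * inner ℝ w (x i • v i + p)
          + 2 * (‖x i • v i + p‖ ^ 2 - (x i ^ 2 * ‖v i‖ ^ 2 + C))
    · obtain ⟨η, hη, hle⟩ := ih (a + x i) (w + v i)
      refine ⟨Function.update η i 1, ?_, ?_⟩
      · intro j
        by_cases hj : j = i
        · subst hj; simp
        · rw [Function.update_of_ne hj]; exact hη j
      · refine le_trans (le_of_eq ?_) (le_trans hle hc)
        have f1 : ∑ j ∈ insert i s, x j * Function.update η i 1 j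
            = x i + ∑ j ∈ s, x j * η j := by
          rw [Finset.sum_insert hi]
          congr 1
          · simp
          · refine Finset.sum_congr rfl fun j hj => ?_
            rw [Function.update_of_ne (hne j hj)]
        have f2 : ∑ j ∈ insert i s, Function.update η i 1 j • v j
            = v i + ∑ j ∈ s, η j • v j := by
          rw [Finset.sum_insert hi]
          congr 1
          · simp
          · refine Finset.sum_congr rfl fun j hj => ?_
            rw [Function.update_of_ne (hne j hj)]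
        have g1 : a + (x i + ∑ j ∈ s, x j * η j) = a + x i + ∑ j ∈ s, x j * η j := by ring
        have g2 : w + (v i + ∑ j ∈ s, η j • v j) = w + v i + ∑ j ∈ s, η j • v j := by abel
        rw [f1, f2, g1, g2]
    · obtain ⟨η, hη, hle⟩ := ih (a - x i) (w - v i)
      refine ⟨Function.update η i (-1), ?_, ?_⟩
      · intro j
        by_cases hj : j = i
        · subst hj; simp
        · rw [Function.update_of_ne hj]; exact hη j
      · refine le_trans (le_of_eq ?_) (le_trans hle ?_)
        · have f1 : ∑ j ∈ insert i s, x j * Function.update η i (-1) j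
              = - x i + ∑ j ∈ s, x j * η j := by
            rw [Finset.sum_insert hi]
            congr 1
            · simp
            · refine Finset.sum_congr rfl fun j hj => ?_
              rw [Function.update_of_ne (hne j hj)]
          have f2 : ∑ j ∈ insert i s, Function.update η i (-1) j • v j
              = - v i + ∑ j ∈ s, η j • v j := by
            rw [Finset.sum_insert hi]
            congr 1
            · simp
            · refine Finset.sum_congr rfl fun j hj => ?_
              rw [Function.update_of_ne (hne j hj)]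
          have g1 : a + (-x i + ∑ j ∈ s, x j * η j) = a - x i + ∑ j ∈ s, x j * η j := by ring
          have g2 : w + (-v i + ∑ j ∈ s, η j • v j) = w - v i + ∑ j ∈ s, η j • v j := by abel
          rw [f1, f2, g1, g2]
        · push Not at hc
          linarith

/-- plain averaging -/
theorem avg {ι : Type} [Fintype ι] [DecidableEq ι] (v : ι → E) (hv : ∀ i, ‖v i‖ = 1) :
    ∃ η : ι → ℝ, (∀ i, η i = 1 ∨ η i = -1) ∧
      ‖∑ i, η i • v i‖ ^ 2 ≤ (Fintype.card ι : ℝ) := by
  obtain ⟨η, hη, h⟩ := key (fun _ => (0 : ℝ)) v 0 Finset.univ 1 0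
  refine ⟨η, hη, ?_⟩
  simpa [hv] using h

/-- linearly dependent unit vectors: `N` replaced by `N - 2` -/
theorem dep {ι : Type} [Fintype ι] [DecidableEq ι] (v : ι → E) (hv : ∀ i, ‖v i‖ = 1)
    (x : ι → ℝ) (hx : ∃ i, x i ≠ 0) (hrel : ∑ i, x i • v i = 0) :
    ∃ η : ι → ℝ, (∀ i, η i = 1 ∨ η i = -1) ∧
      ‖∑ i, η i • v i‖ ^ 2 ≤ (Fintype.card ι : ℝ) - 2 := by
  -- minimise over all signings
  obtain ⟨b, -, hb⟩ := Finset.exists_min_image (Finset.univ : Finset (ι → Bool))
    (fun b => ‖∑ i, (if b i then (1 : ℝ) else -1) • v i‖ ^ 2) ⟨fun _ => true, Finset.mem_univ _⟩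
  refine ⟨fun i => if b i then 1 else -1, fun i => by by_cases h : b i <;> simp [h], ?_⟩
  by_contra hcon
  push Not at hcon
  set m := ‖∑ i, (if b i then (1 : ℝ) else -1) • v i‖ ^ 2 with hm
  obtain ⟨η, hη, h⟩ := key x v m Finset.univ 0 0
  have hmin : m ≤ ‖∑ i, η i • v i‖ ^ 2 := by
    have h1 := hb (fun i => decide (η i = 1)) (Finset.mem_univ _)
    have h2 : ∀ i, (if decide (η i = 1) then (1 : ℝ) else -1) = η i := by
      intro i
      rcases hη i with h | h
      · simp [h]
      · rw [h]; norm_num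
    simp only [h2] at h1
    exact h1
  have hpos : 0 < ∑ i, x i ^ 2 := by
    obtain ⟨i, hi⟩ := hx
    exact Finset.sum_pos' (fun j _ => sq_nonneg _) ⟨i, Finset.mem_univ _, by positivity⟩
  have hsq : ∑ i, x i ^ 2 * ‖v i‖ ^ 2 = ∑ i, x i ^ 2 := by
    refine Finset.sum_congr rfl fun i _ => by rw [hv i]; ring
  have hcard : ∑ i, ‖v i‖ ^ 2 = (Fintype.card ι : ℝ) := by simp [hv]
  rw [hrel, hsq, hcard] at h
  simp only [zero_add, norm_zero, inner_zero_right] at h
  have h0 : 0 ≤ (∑ i, x i * η i) ^ 2 * (‖∑ i, η i • v i‖ ^ 2 - m) :=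
    mul_nonneg (sq_nonneg _) (by linarith)
  nlinarith

/-- signs with sum `0` or `1` -/
theorem signs {ι : Type} [DecidableEq ι] (s : Finset ι) :
    ∃ t : ι → ℝ, (∀ i, t i = 1 ∨ t i = -1) ∧
      ∑ i ∈ s, t i = if Odd s.card then 1 else 0 := by
  induction s using Finset.induction_on with
  | empty => exact ⟨fun _ => 1, fun _ => Or.inl rfl, by simp⟩
  | insert i s hi ih =>
    obtain ⟨t, ht, hs⟩ := ih
    have hne : ∀ j ∈ s, j ≠ i := fun j hj h => hi (h ▸ hj)
    rw [Finset.card_insert_of_notMem hi]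
    by_cases ho : Odd s.card
    · refine ⟨Function.update t i (-1), ?_, ?_⟩
      · intro j
        by_cases hj : j = i
        · subst hj; simp
        · rw [Function.update_of_ne hj]; exact ht j
      · have : ¬ Odd (s.card + 1) := by
          rw [Nat.odd_add_one]; simpa using ho
        rw [if_neg this, Finset.sum_insert hi]
        have : ∑ j ∈ s, Function.update t i (-1) j = ∑ j ∈ s, t j :=
          Finset.sum_congr rfl fun j hj => Function.update_of_ne (hne j hj) _ _
        rw [this, hs, if_pos ho]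
        simp
    · refine ⟨Function.update t i 1, ?_, ?_⟩
      · intro j
        by_cases hj : j = i
        · subst hj; simp
        · rw [Function.update_of_ne hj]; exact ht j
      · have : Odd (s.card + 1) := by
          rw [Nat.odd_add_one]; exact ho
        rw [if_pos this, Finset.sum_insert hi]
        have : ∑ j ∈ s, Function.update t i 1 j = ∑ j ∈ s, t j :=
          Finset.sum_congr rfl fun j hj => Function.update_of_ne (hne j hj) _ _
        rw [this, hs, if_neg ho]
        simp

/-- **The conjecture for vectors on at most `d + 2` lines.** Let `d ≥ 1`, let `n` and `d` have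
opposite parity and let `v 1, …, v n` be unit vectors in `ℝ^d`. If `n ≤ d + 1`, or if all the
vectors `v i` are among `± u 1, …, ± u (d + 2)` for some vectors `u j`, then some signing has
`‖∑ η i • v i‖ ≤ √(d - 1)`. -/
theorem result (d n : ℕ) (hd : 1 ≤ d) (hn : n % 2 ≠ d % 2)
    (v : Fin n → EuclideanSpace ℝ (Fin d)) (hv : ∀ i, ‖v i‖ = 1)
    (h : n ≤ d + 1 ∨ ∃ u : Fin (d + 2) → EuclideanSpace ℝ (Fin d),
      ∀ i, ∃ j, v i = u j ∨ v i = - u j) :
    ∃ η : Fin n → ℝ, (∀ i, η i = 1 ∨ η i = -1) ∧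
      ‖∑ i, η i • v i‖ ≤ Real.sqrt ((d : ℝ) - 1) := by
  classical
  have hlines : ∃ u : Fin (d + 2) → EuclideanSpace ℝ (Fin d),
      ∀ i, ∃ j, v i = u j ∨ v i = - u j := by
    rcases h with h | h
    · refine ⟨fun j => if hj : (j : ℕ) < n then v ⟨j, hj⟩ else 0, fun i =>
        ⟨⟨i, by omega⟩, Or.inl ?_⟩⟩
      simp
    · exact h
  obtain ⟨u, hu⟩ := hlines
  choose c hc using hu
  -- signs relating `v i` and `u (c i)`
  have he : ∀ i, ∃ e : ℝ, (e = 1 ∨ e = -1) ∧ v i = e • u (c i) := by
    intro i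
    rcases hc i with h | h
    · exact ⟨1, Or.inl rfl, by simpa using h⟩
    · exact ⟨-1, Or.inr rfl, by simpa using h⟩
  choose e he1 he2 using he
  have hee : ∀ i, e i * e i = 1 := by
    intro i; rcases he1 i with h | h <;> rw [h] <;> norm_num
  have hunorm : ∀ i, ‖u (c i)‖ = 1 := by
    intro i
    have h1 := hv i
    rw [he2 i, norm_smul] at h1
    rcases he1 i with h | h <;> rw [h] at h1 <;> simpa using h1
  let fib : Fin (d + 2) → Finset (Fin n) := fun j => Finset.univ.filter fun i => c i = j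
  choose t ht1 ht2 using fun j => signs (fib j)
  let J : Finset (Fin (d + 2)) := Finset.univ.filter fun j => Odd (fib j).card
  -- parity of `J`
  have hcardn : n = ∑ j, (fib j).card := by
    have := Finset.card_eq_sum_card_fiberwise (s := (Finset.univ : Finset (Fin n)))
      (t := (Finset.univ : Finset (Fin (d + 2)))) (f := c) (fun _ _ => Finset.mem_univ _)
    simpa [fib] using this
  have hJodd : Odd n ↔ Odd J.card := by
    conv_lhs => rw [hcardn]
    exact Finset.odd_sum_iff_odd_card_odd _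
  have hJle : J.card ≤ d + 2 := by
    simpa using Finset.card_le_univ J
  have hJpar : J.card % 2 ≠ d % 2 := by
    rw [Nat.odd_iff, Nat.odd_iff] at hJodd
    omega
  have hJ1 : J.card ≤ d + 1 := by omega
  have huJ : ∀ j : J, ‖u j‖ = 1 := by
    rintro ⟨j, hj⟩
    have : Odd (fib j).card := (Finset.mem_filter.mp hj).2
    have hne : (fib j).Nonempty := by
      rw [← Finset.card_pos]
      exact this.pos
    obtain ⟨i, hi⟩ := hne
    have hci : c i = j := (Finset.mem_filter.mp hi).2
    have := hunorm i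
    rw [hci] at this
    exact this
  -- signs on `J`
  have hσ : ∃ σ : J → ℝ, (∀ j, σ j = 1 ∨ σ j = -1) ∧
      ‖∑ j : J, σ j • u j‖ ^ 2 ≤ (d : ℝ) - 1 := by
    by_cases hJd : J.card = d + 1
    · have hdep : ¬ LinearIndependent ℝ (fun j : J => u j) := by
        intro hli
        have := hli.fintype_card_le_finrank
        simp at this
        omega
      rw [Fintype.not_linearIndependent_iff] at hdep
      obtain ⟨x, hx0, hx1⟩ := hdep
      obtain ⟨η, hη, hle⟩ := dep (fun j : J => u j) huJ x hx1 hx0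
      refine ⟨η, hη, le_trans hle ?_⟩
      rw [Fintype.card_coe, hJd]
      push_cast
      linarith
    · obtain ⟨η, hη, hle⟩ := avg (fun j : J => u j) huJ
      refine ⟨η, hη, le_trans hle ?_⟩
      rw [Fintype.card_coe]
      have h1 : J.card + 1 ≤ d := by omega
      have h2 : ((J.card + 1 : ℕ) : ℝ) ≤ (d : ℝ) := by exact_mod_cast h1
      push_cast at h2
      linarith
  obtain ⟨σ, hσ1, hσ2⟩ := hσ
  let τ : Fin (d + 2) → ℝ := fun j => if hj : j ∈ J then σ ⟨j, hj⟩ else 1
  have hτ : ∀ j, τ j = 1 ∨ τ j = -1 := by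
    intro j
    by_cases hj : j ∈ J
    · simpa [τ, hj] using hσ1 ⟨j, hj⟩
    · simp [τ, hj]
  refine ⟨fun i => τ (c i) * t (c i) i * e i, ?_, ?_⟩
  · intro i
    rcases hτ (c i) with h1 | h1 <;> rcases ht1 (c i) i with h2 | h2 <;>
      rcases he1 i with h3 | h3 <;> simp [h1, h2, h3]
  · have hsum : ∑ i, (τ (c i) * t (c i) i * e i) • v i = ∑ j : J, σ j • u j := by
      have h1 : ∀ i, (τ (c i) * t (c i) i * e i) • v i = (τ (c i) * t (c i) i) • u (c i) := by
        intro i
        conv_lhs => rw [he2 i]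
        rw [smul_smul, mul_assoc, hee, mul_one]
      calc ∑ i, (τ (c i) * t (c i) i * e i) • v i
          = ∑ i, (τ (c i) * t (c i) i) • u (c i) := Finset.sum_congr rfl fun i _ => h1 i
        _ = ∑ j, ∑ i ∈ fib j, (τ (c i) * t (c i) i) • u (c i) :=
            (Finset.sum_fiberwise _ _ _).symm
        _ = ∑ j, (τ j * (if Odd (fib j).card then 1 else 0)) • u j := by
            refine Finset.sum_congr rfl fun j _ => ?_
            rw [← ht2 j, Finset.mul_sum, Finset.sum_smul]
            refine Finset.sum_congr rfl fun i hi => ?_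
            have : c i = j := (Finset.mem_filter.mp hi).2
            rw [this]
        _ = ∑ j ∈ J, τ j • u j := by
            rw [Finset.sum_filter]
            refine Finset.sum_congr rfl fun j _ => ?_
            by_cases ho : Odd (fib j).card
            · simp [ho]
            · simp [ho]
        _ = ∑ j : J, σ j • u j := by
            rw [← Finset.sum_coe_sort J]
            refine Finset.sum_congr rfl fun j _ => ?_
            simp [τ]
    rw [hsum]
    exact Real.le_sqrt_of_sq_le hσ2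

end Pool.Agent.Results.MP_1be6c9_co.FewLines
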